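import Pool.Agent.V1121.OC.Crit

set_option autoImplicit false
set_option linter.unusedSimpArgs false

/-!
The elementary pieces.
-/

namespace Pool.Agent.V1121.OC

open Finset Pool.Agent.TH505.OCDC Subgroup

variable {Γ : Type} [Group Γ]

/-- equality of left cosets of a cyclic subgroup -/
lemma mk_eq {c x y : Γ} : ((x : Γ ⧸ zpowers c) = (y : Γ ⧸ zpowers c)) ↔ x⁻¹ * y ∈ zpowers c :=
  QuotientGroup.eq

/-- one generator which is not an involution -/
lemma good_one {a : Γ} (ha : a⁻¹ ≠ a) : Good ({a, a⁻¹} : Set Γ) := by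
  classical
  refine ⟨Bool, ⟨⟨?_, fun _ g => decide (g = a),
      fun _ g => g, fun _ g hg => hg, fun _ g _ h _ e => e, fun _ g _ => rfl, ?_⟩⟩⟩
  · rintro g (rfl | rfl)
    · right; rfl
    · left; simp
  · rintro x g (rfl | rfl)
    · simp [ha]
    · simp [ha]

lemma inv_of_sq {s : Γ} (hs : s * s = 1) : s⁻¹ = s := inv_eq_of_mul_eq_one_left hs

/-- an involution does not lie in the rotation subgroup generated by it and another one -/
lemma not_mem_rot {s t : Γ} (hs : s * s = 1) (ht : t * t = 1) (hs1 : s ≠ 1) (ht1 : t ≠ 1) :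
    s ∉ zpowers (s * t) := by
  intro h
  obtain ⟨n, hn⟩ := mem_zpowers_iff.mp h
  have hc : s * (s * t) = (s * t) * s := by
    have : Commute s ((s * t) ^ n) := by rw [hn]
    have h2 : Commute ((s * t) ^ n) (s * t) := (Commute.refl (s * t)).zpow_left n
    rw [hn] at h2
    exact h2.eq
  have h2 : (s * t) * (s * t) = 1 := by
    calc (s * t) * (s * t) = ((s * t) * s) * t := by group
      _ = (s * (s * t)) * t := by rw [hc]
      _ = (s * s) * (t * t) := by group
      _ = 1 := by rw [hs, ht, one_mul]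
  rcases Int.even_or_odd' n with ⟨m, hm | hm⟩
  · rw [hm, zpow_mul, zpow_two, h2, one_zpow] at hn
    exact hs1 hn.symm
  · rw [hm, zpow_add, zpow_mul, zpow_two, h2, one_zpow, one_mul, zpow_one] at hn
    exact ht1 (mul_eq_left.mp hn)

/-- two involutions -/
lemma good_pair {s t : Γ} (hs : s * s = 1) (ht : t * t = 1) (hs1 : s ≠ 1) (ht1 : t ≠ 1)
    (hst : s ≠ t) : Good ({s, t} : Set Γ) := by
  classical
  have hsi := inv_of_sq hs
  have hti := inv_of_sq ht
  have hn := not_mem_rot hs ht hs1 ht1
  refine ⟨Γ ⧸ zpowers (s * t), ⟨⟨?_, fun x g => if g = s then ((x : Γ) : Γ ⧸ zpowers (s * t)) else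
                     ((x * s : Γ) : Γ ⧸ zpowers (s * t)),
      fun _ g => if g = s then t else s, ?_, ?_, ?_, ?_⟩⟩⟩
  · rintro g (rfl | rfl)
    · left; exact hsi
    · right; exact hti
  · rintro v g (rfl | rfl)
    · simp
    · simp [hst.symm]
  · rintro v g (rfl | rfl) h (rfl | rfl) e
    · rfl
    · simp [hst, hst.symm] at e
    · simp [hst, hst.symm] at e
    · rfl
  · rintro v g (rfl | rfl)
    · simp [hst.symm, hsi]
    · simp only [if_neg hst.symm, if_true]
      rw [mk_eq]
      have : (v * g⁻¹ * s)⁻¹ * v = s⁻¹ * g := by group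
      rw [this, hsi]; exact mem_zpowers _
  · rintro x g (rfl | rfl)
    · rw [hsi]
      simp only [if_true]
      rw [Ne, mk_eq]
      have : x⁻¹ * (x * g) = g := by group
      rwa [this]
    · rw [hti]
      simp only [if_neg hst.symm]
      rw [Ne, mk_eq]
      intro h
      have e : (x * s)⁻¹ * (x * g * s) = s⁻¹ * g * s := by group
      rw [e, hsi] at h
      apply hn
      have h2 := mul_mem h (mem_zpowers (s * g))
      have e2 : s * g * s * (s * g) = s := by
        calc s * g * s * (s * g) = s * (g * (s * s) * g) := by group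
          _ = s := by rw [hs, mul_one, ht, mul_one]
      rwa [e2] at h2

/-- an involution and a generator which is not one: zigzags -/
lemma good_zigzag {s a : Γ} (hs : s * s = 1) (ha : a⁻¹ ≠ a) (hn : s ∉ zpowers (s * a)) :
    Good ({s, a, a⁻¹} : Set Γ) := by
  classical
  have hsi := inv_of_sq hs
  have hsa : s ≠ a := by rintro rfl; exact ha hsi
  have hsa' : s ≠ a⁻¹ := by
    rintro rfl
    apply ha
    rw [inv_inv] at hsi; exact hsi.symm
  refine ⟨Option (Γ ⧸ zpowers (s * a)), ⟨⟨?_, fun x g => if g = s then some ((x : Γ) : Γ ⧸ zpowers (s * a)) else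
                     if g = a then some ((x * s : Γ) : Γ ⧸ zpowers (s * a)) else none,
      fun _ g => if g = s then a else if g = a then s else g, ?_, ?_, ?_, ?_⟩⟩⟩
  · rintro g (rfl | rfl | rfl)
    · left; exact hsi
    · right; right; rfl
    · right; left; simp
  · rintro v g (rfl | rfl | rfl)
    · simp
    · simp [hsa.symm]
    · simp [hsa'.symm, ha]
  · rintro v g (rfl | rfl | rfl) h (rfl | rfl | rfl) e
    · rfl
    · simp [hsa, hsa.symm] at e
    · simp [hsa'.symm, ha, ha.symm] at e
    · simp [hsa, hsa.symm] at e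
    · rfl
    · simp [hsa, hsa', hsa.symm, hsa'.symm, ha, ha.symm] at e
    · simp [hsa'.symm, ha, ha.symm] at e
    · simp [hsa, hsa', hsa.symm, hsa'.symm, ha, ha.symm] at e
    · rfl
  · rintro v g (rfl | rfl | rfl)
    · simp [hsa.symm, hsi]
    · simp only [if_neg hsa.symm, if_true]
      congr 1
      rw [mk_eq]
      have : (v * g⁻¹ * s)⁻¹ * v = s⁻¹ * g := by group
      rw [this, hsi]; exact mem_zpowers _
    · simp [hsa'.symm, ha]
  · rintro x g (rfl | rfl | rfl)
    · rw [hsi]
      simp only [if_true]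
      rw [Ne, Option.some.injEq, mk_eq]
      have : x⁻¹ * (x * g) = g := by group
      rwa [this]
    · simp [hsa.symm, hsa'.symm, ha]
    · simp [hsa.symm, hsa'.symm, ha]

/-- three involutions: the walks with pattern `s t u` -/
lemma good_three {s t u : Γ} (hs : s * s = 1) (ht : t * t = 1) (hu : u * u = 1)
    (hst : s ≠ t) (htu : t ≠ u) (hsu : s ≠ u) (h1 : s ∉ zpowers (s * t * u))
    (h2 : s * t ∉ zpowers (s * t * u)) (h3 : s * t * s ∉ zpowers (s * t * u)) :
    Good ({s, t, u} : Set Γ) := by
  classical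
  have hsi := inv_of_sq hs
  have hti := inv_of_sq ht
  have hui := inv_of_sq hu
  refine ⟨Γ ⧸ zpowers (s * t * u), ⟨⟨?_, fun x g => if g = s then ((x : Γ) : Γ ⧸ zpowers (s * t * u)) else
                     if g = t then ((x * s : Γ) : Γ ⧸ zpowers (s * t * u)) else
                     ((x * t * s : Γ) : Γ ⧸ zpowers (s * t * u)),
      fun _ g => if g = s then t else if g = t then u else s, ?_, ?_, ?_, ?_⟩⟩⟩
  · rintro g (rfl | rfl | rfl)
    · left; exact hsi
    · right; left; exact hti
    · right; right; exact hui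
  · rintro v g (rfl | rfl | rfl)
    · simp
    · simp [hst.symm]
    · simp [htu.symm, hsu.symm]
  · rintro v g (rfl | rfl | rfl) h (rfl | rfl | rfl) e
    · rfl
    · simp [hst, hst.symm, htu, htu.symm] at e
    · simp [hst, hst.symm, htu, htu.symm, hsu, hsu.symm] at e
    · simp [hst, hst.symm, htu, htu.symm] at e
    · rfl
    · simp [hst, hst.symm, htu, htu.symm, hsu, hsu.symm] at e
    · simp [hst, hst.symm, htu, htu.symm, hsu, hsu.symm] at e
    · simp [hst, hst.symm, htu, htu.symm, hsu, hsu.symm] at e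
    · rfl
  · rintro v g (rfl | rfl | rfl)
    · simp [hst.symm, hsi]
    · simp [hst.symm, htu.symm, hsu.symm, hti]
    · simp only [if_neg hsu.symm, if_neg htu.symm, if_true]
      rw [mk_eq]
      have : (v * g⁻¹ * t * s)⁻¹ * v = s⁻¹ * t⁻¹ * g := by group
      rw [this, hsi, hti]; exact mem_zpowers _
  · rintro x g (rfl | rfl | rfl)
    · rw [hsi]
      simp only [if_true]
      rw [Ne, mk_eq]
      have : x⁻¹ * (x * g) = g := by group
      rwa [this]
    · rw [hti]
      simp only [if_neg hst.symm, if_true]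
      rw [Ne, mk_eq]
      have : (x * s)⁻¹ * (x * g * s) = s⁻¹ * g * s := by group
      rwa [this, hsi]
    · rw [hui]
      simp only [if_neg hsu.symm, if_neg htu.symm]
      rw [Ne, mk_eq]
      intro h
      apply h2
      have h4 := mul_mem h (mem_zpowers (s * t * g))
      have e : (x * t * s)⁻¹ * (x * g * t * s) * (s * t * g) = s * t := by
        calc (x * t * s)⁻¹ * (x * g * t * s) * (s * t * g)
            = s⁻¹ * t⁻¹ * g * t * (s * s) * t * g := by group
          _ = s⁻¹ * t⁻¹ * g * (t * t) * g := by rw [hs]; group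
          _ = s⁻¹ * t⁻¹ * (g * g) := by rw [ht]; group
          _ = s * t := by rw [hu, hsi, hti, mul_one]
      rwa [e] at h4

/-- a two-colouring of the cosets of a subgroup which are exchanged by an involution -/
lemma exists_level (E : Subgroup Γ) {s : Γ} (hs : s * s = 1) (hsE : s ∉ E)
    (hn : ∀ e ∈ E, s * e * s ∈ E) :
    ∃ q : Γ → Bool, (∀ x, ∀ e ∈ E, q (x * e) = q x) ∧ ∀ x, q (x * s) = !q x := by
  classical
  have hsi := inv_of_sq hs
  let _ : LinearOrder (Γ ⧸ E) := linearOrderOfSTO WellOrderingRel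
  refine ⟨fun x => decide (((x : Γ) : Γ ⧸ E) < ((x * s : Γ) : Γ ⧸ E)), ?_, ?_⟩
  · intro x e he
    have h1 : ((x * e : Γ) : Γ ⧸ E) = (x : Γ ⧸ E) := by
      rw [QuotientGroup.eq]
      have : (x * e)⁻¹ * x = e⁻¹ := by group
      rw [this]; exact inv_mem he
    have h2 : ((x * e * s : Γ) : Γ ⧸ E) = ((x * s : Γ) : Γ ⧸ E) := by
      rw [QuotientGroup.eq]
      have : (x * e * s)⁻¹ * (x * s) = s⁻¹ * e⁻¹ * s := by group
      rw [this, hsi]; exact hn _ (inv_mem he)
    simp only [h1, h2]
  · intro x
    have h1 : x * s * s = x := by rw [mul_assoc, hs, mul_one]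
    have h2 : ((x : Γ) : Γ ⧸ E) ≠ ((x * s : Γ) : Γ ⧸ E) := by
      rw [Ne, QuotientGroup.eq]
      have : x⁻¹ * (x * s) = s := by group
      rwa [this]
    simp only [h1]
    rcases lt_or_gt_of_ne h2 with h | h
    · rw [decide_eq_true h, decide_eq_false h.not_gt]; rfl
    · rw [decide_eq_true h, decide_eq_false h.not_gt]; rfl

/-- three involutions, bipartite case -/
lemma good_bip {s t u : Γ} (hs : s * s = 1) (ht : t * t = 1) (hu : u * u = 1)
    (hst : s ≠ t) (htu : t ≠ u) (hsu : s ≠ u) (q : Γ → Bool) (qs : ∀ x, q (x * s) = !q x)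
    (qt : ∀ x, q (x * t) = !q x) (qu : ∀ x, q (x * u) = !q x) : Good ({s, t, u} : Set Γ) := by
  classical
  have hsi := inv_of_sq hs
  have hti := inv_of_sq ht
  have hui := inv_of_sq hu
  refine ⟨ℕ, ⟨⟨?_, fun x g => if q x = true then (if g = s then 2 else if g = t then 0 else 1) else
      (if g = s then 0 else if g = t then 1 else 2),
      fun v g => if q v = true then (if g = s then t else if g = t then u else s) else
        (if g = s then u else if g = t then s else t), ?_, ?_, ?_, ?_⟩⟩⟩
  · rintro g (rfl | rfl | rfl)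
    · left; exact hsi
    · right; left; exact hti
    · right; right; exact hui
  · rintro v g (rfl | rfl | rfl) <;> cases hq : q v <;> simp [hst.symm, htu.symm, hsu.symm]
  · rintro v g (rfl | rfl | rfl) h (rfl | rfl | rfl) e <;> cases hq : q v <;>
      simp [hq, hst, hst.symm, htu, htu.symm, hsu, hsu.symm] at e ⊢
  · rintro v g (rfl | rfl | rfl)
    · rw [hsi, qs]; cases hq : q v <;> simp [hst.symm, htu.symm, hsu.symm]
    · rw [hti, qt]; cases hq : q v <;> simp [hst.symm, htu.symm, hsu.symm]
    · rw [hui, qu]; cases hq : q v <;> simp [hst.symm, htu.symm, hsu.symm]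
  · rintro v g (rfl | rfl | rfl)
    · rw [hsi, qs]; cases hq : q v <;> simp [hst.symm, htu.symm, hsu.symm]
    · rw [hti, qt]; cases hq : q v <;> simp [hst.symm, htu.symm, hsu.symm]
    · rw [hui, qu]; cases hq : q v <;> simp [hst.symm, htu.symm, hsu.symm]

/-- an involution `s` commuting with `a`, not a power of `a`: prisms -/
lemma good_prism {s a : Γ} (hs : s * s = 1) (ha : a⁻¹ ≠ a) (hc : s * a = a * s)
    (hn : s ∉ zpowers a) : Good ({s, a, a⁻¹} : Set Γ) := by
  classical
  have hsi := inv_of_sq hs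
  have hsa : s ≠ a := by rintro rfl; exact ha hsi
  have hsa' : s ≠ a⁻¹ := by
    rintro rfl
    apply ha
    rw [inv_inv] at hsi; exact hsi.symm
  obtain ⟨q, q1, q2⟩ := exists_level (zpowers a) hs hn (by
    intro e he
    obtain ⟨n, rfl⟩ := mem_zpowers_iff.mp he
    have h1 : Commute s (a ^ n) := Commute.zpow_right hc n
    have h2 : s * a ^ n * s = a ^ n := by
      rw [h1.eq, mul_assoc, hs, mul_one]
    rw [h2]; exact zpow_mem_zpowers a n)
  have qa : ∀ x, q (x * a) = q x := fun x => q1 x a (mem_zpowers a)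
  have qa' : ∀ x, q (x * a⁻¹) = q x := fun x => q1 x a⁻¹ (inv_mem (mem_zpowers a))
  have ha1 : a ≠ 1 := by rintro rfl; simp at ha
  refine ⟨Γ ⊕ Bool, ⟨⟨?_, fun x g => if q x = true then
        (if g = s then Sum.inl (x * s) else if g = a then Sum.inr true else Sum.inl (x * s * a⁻¹))
      else (if g = s then Sum.inl (x * a⁻¹) else if g = a then Sum.inl x else Sum.inr false),
      fun v g => if q v = true then (if g = s then a⁻¹ else if g = a then a else s) else
        (if g = s then a else if g = a then s else a⁻¹), ?_, ?_, ?_, ?_⟩⟩⟩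
  · rintro g (rfl | rfl | rfl)
    · left; exact hsi
    · right; right; rfl
    · right; left; simp
  · rintro v g (rfl | rfl | rfl) <;> cases hq : q v <;> simp [hsa.symm, hsa'.symm, ha]
  · rintro v g (rfl | rfl | rfl) h (rfl | rfl | rfl) e <;> cases hq : q v <;>
      simp [hq, hsa, hsa.symm, hsa', hsa'.symm, ha, ha.symm] at e ⊢
  · rintro v g (rfl | rfl | rfl)
    · rw [hsi, q2]; cases hq : q v <;> simp [hq, hsa.symm, hsa'.symm, ha, hs, mul_assoc]
    · rw [qa']; cases hq : q v <;> simp [hq, hsa.symm, hsa'.symm, ha, hs, mul_assoc]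
    · rw [inv_inv, qa]; cases hq : q v <;> simp [hq, hsa.symm, hsa'.symm, ha, hs, mul_assoc]
      rw [← mul_assoc a s, ← hc]; group
  · rintro v g (rfl | rfl | rfl)
    · rw [hsi, q2]; cases hq : q v <;> simp [hq, hsa.symm, hsa'.symm, ha, hs, mul_assoc, ha1]
    · rw [qa]; cases hq : q v <;> simp [hq, hsa.symm, hsa'.symm, ha, hs, mul_assoc]
    · rw [inv_inv, qa']; cases hq : q v <;> simp [hq, hsa.symm, hsa'.symm, ha, hs, mul_assoc]

end Pool.Agent.V1121.OC
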