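import Pool.Agent.V1121.OC.ML

set_option autoImplicit false
set_option linter.unusedSimpArgs false
set_option linter.unusedVariables false

/-!
All Cayley graphs.
-/

namespace Pool.Agent.V1121.OC

open Finset Pool.Agent.TH505.OCDC Subgroup

variable {Γ : Type} [Group Γ]

lemma half_order [Finite Γ] {s a : Γ} (hs : s * s = 1) (hs1 : s ≠ 1) (h : s ∈ zpowers a) :
    ∃ k : ℕ, 0 < k ∧ orderOf a = 2 * k ∧ s = a ^ k := by
  have hpos := orderOf_pos a
  obtain ⟨j, hj⟩ := (mem_powers_iff_mem_zpowers (x := a) (y := s)).mpr h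
  simp only at hj
  have h1 : orderOf a ∣ 2 * j := by
    rw [orderOf_dvd_iff_pow_eq_one, mul_comm, pow_mul, hj, pow_two, hs]
  have h2 : ¬ orderOf a ∣ j := by
    rw [orderOf_dvd_iff_pow_eq_one, hj]; exact hs1
  rcases Nat.even_or_odd' (orderOf a) with ⟨k, hk | hk⟩
  · refine ⟨k, by omega, hk, ?_⟩
    rw [hk] at h1 h2
    have h3 : k ∣ j := Nat.dvd_of_mul_dvd_mul_left (by norm_num) h1
    obtain ⟨m, rfl⟩ := h3
    rcases Nat.even_or_odd' m with ⟨l, hl | hl⟩
    · exact absurd ⟨l, by rw [hl]; ring⟩ h2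
    · rw [← hj, hl, mul_add, mul_one, pow_add, ← mul_assoc, pow_mul]
      have : a ^ (k * 2) = 1 := by rw [mul_comm, ← hk, pow_orderOf_eq_one]
      rw [this, one_pow, one_mul]
  · exfalso
    apply h2
    apply Nat.Coprime.dvd_of_dvd_mul_left _ h1
    exact Nat.coprime_two_right.mpr ⟨k, hk⟩

lemma comm_of_mem {s a : Γ} (hs : s * s = 1) (h : s ∈ zpowers (s * a)) : s * a = a * s := by
  obtain ⟨n, hn⟩ := mem_zpowers_iff.mp h
  have h2 : Commute ((s * a) ^ n) (s * a) := (Commute.refl (s * a)).zpow_left n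
  rw [hn] at h2
  have h3 : s * (s * a) = s * a * s := h2.eq
  rw [← mul_assoc, hs, one_mul] at h3
  calc s * a = s * (s * a * s) := by rw [← h3]
    _ = (s * s) * a * s := by group
    _ = a * s := by rw [hs, one_mul]

lemma mulRight_pow (a : Γ) (n : ℕ) (x : Γ) : ((Equiv.mulRight a) ^ n : Equiv.Perm Γ) x = x * a ^ n := by
  induction n with
  | zero => simp
  | succ n ih =>
    rw [pow_succ', Equiv.Perm.mul_apply, ih, pow_succ]
    show x * a ^ n * a = _
    rw [mul_assoc]

/-- an involution and a generator which is not one -/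
lemma good_mixed [Finite Γ] {s a : Γ} (hs : s * s = 1) (hs1 : s ≠ 1) (ha : a⁻¹ ≠ a) :
    Good ({s, a, a⁻¹} : Set Γ) := by
  by_cases h : s ∈ zpowers (s * a)
  swap
  · exact good_zigzag hs ha h
  have hc := comm_of_mem hs h
  by_cases h2 : s ∈ zpowers a
  swap
  · exact good_prism hs ha hc h2
  obtain ⟨k, hk0, hk, hsk⟩ := half_order hs hs1 h2
  have hsi := inv_of_sq hs
  have heven : k % 2 = 0 := by
    by_contra hodd
    obtain ⟨n, hn⟩ := mem_zpowers_iff.mp h
    have h3 : s * a = a ^ ((k : ℤ) + 1) := by rw [zpow_add, zpow_one, zpow_natCast, ← hsk]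
    rw [h3, ← zpow_mul] at hn
    have h4 : a ^ (((k : ℤ) + 1) * n - k) = 1 := by
      rw [zpow_sub, hn, zpow_natCast, ← hsk, mul_inv_cancel]
    rw [← orderOf_dvd_iff_zpow_eq_one, hk] at h4
    obtain ⟨m, hm⟩ := h4
    obtain ⟨l, hl⟩ : ∃ l : ℤ, (k : ℤ) = 2 * l + 1 := ⟨(k / 2 : ℕ), by omega⟩
    have h5 : ((k : ℤ) + 1) * n - k = 2 * ((l + 1) * n - l) - 1 := by rw [hl]; ring
    rw [h5] at hm
    push_cast at hm
    have h6 : (2 : ℤ) * (k : ℤ) * m = 2 * (k * m) := by ring
    rw [h6] at hm
    omega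
  refine good_ml hs (Equiv.mulRight a) (k := k) (by omega) heven ?_ ?_ ?_ ?_
  · intro x n
    rw [mulRight_pow, ← hk, orderOf_dvd_iff_pow_eq_one]
    exact mul_eq_left
  · intro x
    rw [mulRight_pow, ← hsk]
  · rintro g (rfl | rfl | rfl)
    · left; exact hsi
    · right; right; rfl
    · right; left; simp
  · intro x g
    have e : (Equiv.mulRight a)⁻¹ x = x * a⁻¹ := rfl
    rw [e, Equiv.coe_mulRight]
    simp only [Set.mem_insert_iff, Set.mem_singleton_iff, mul_right_inj]
    tauto

/-- three involutions, `s` a power of `t u` -/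
lemma good_dihedral [Finite Γ] {s t u : Γ} (hs : s * s = 1) (ht : t * t = 1) (hu : u * u = 1)
    (hs1 : s ≠ 1) (ht1 : t ≠ 1) (hu1 : u ≠ 1) (hr : s ∈ zpowers (t * u)) :
    Good ({s, t, u} : Set Γ) := by
  classical
  have hsi := inv_of_sq hs
  have hti := inv_of_sq ht
  have hui := inv_of_sq hu
  obtain ⟨h, hh0, hh, hsh⟩ := half_order hs hs1 hr
  have hinv : (t * u)⁻¹ = u * t := by rw [mul_inv_rev, hti, hui]
  obtain ⟨q, q1, q2⟩ := exists_level (zpowers (t * u)) ht (not_mem_rot ht hu ht1 hu1) (by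
    intro e he
    obtain ⟨n, rfl⟩ := mem_zpowers_iff.mp he
    have h1 : t * (t * u) ^ n * t = ((t * u)⁻¹) ^ n := by
      have h2 : t * (t * u) ^ n * t⁻¹ = (t * (t * u) * t⁻¹) ^ n := conj_zpow.symm
      rw [hti] at h2
      rw [h2, hinv]
      congr 1
      calc t * (t * u) * t = (t * t) * u * t := by group
        _ = u * t := by rw [ht, one_mul]
    rw [h1]
    exact zpow_mem (inv_mem (mem_zpowers _)) n)
  have q3 : ∀ x, q (x * u) = !q x := by
    intro x
    have : x * u = x * t * (t * u) := by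
      calc x * u = x * (t * t) * u := by rw [ht, mul_one]
        _ = x * t * (t * u) := by group
    rw [this, q1 _ _ (mem_zpowers _), q2]
  let f : Equiv.Perm Γ :=
    { toFun := fun x => if q x = true then x * u else x * t
      invFun := fun x => if q x = true then x * t else x * u
      left_inv := by
        intro x
        cases hq : q x
        · simp [hq, q2, mul_assoc, ht]
        · simp [hq, q3, mul_assoc, hu]
      right_inv := by
        intro x
        cases hq : q x
        · simp [hq, q3, mul_assoc, hu]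
        · simp [hq, q2, mul_assoc, ht] }
  have f1 : ∀ x, q x = true → f x = x * u := fun x hx => if_pos hx
  have f2 : ∀ x, q x = false → f x = x * t := fun x hx => if_neg (by simp [hx])
  have g1 : ∀ x, q x = true → f⁻¹ x = x * t := fun x hx => if_pos hx
  have g2 : ∀ x, q x = false → f⁻¹ x = x * u := fun x hx => if_neg (by simp [hx])
  have qf : ∀ x, q (f x) = !q x := by
    intro x
    cases hq : q x
    · rw [f2 x hq, q2, hq]
    · rw [f1 x hq, q3, hq]
  have qpow : ∀ n x, q ((f ^ n) x) = if n % 2 = 0 then q x else !q x := by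
    intro n
    induction n with
    | zero => intro x; simp
    | succ n ih =>
      intro x
      rw [pow_succ', Equiv.Perm.mul_apply, qf, ih]
      rcases Nat.mod_two_eq_zero_or_one n with h | h
      · rw [if_pos h, if_neg (by omega)]
      · rw [if_neg (by omega), if_pos (by omega), Bool.not_not]
  have fpow : ∀ m x, (f ^ (2 * m)) x = if q x = true then x * (u * t) ^ m else x * (t * u) ^ m := by
    intro m
    induction m with
    | zero => intro x; simp
    | succ m ih =>
      intro x
      have e : 2 * (m + 1) = 1 + (1 + 2 * m) := by ring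
      rw [e, pow_add, pow_one, Equiv.Perm.mul_apply, pow_add, pow_one, Equiv.Perm.mul_apply]
      have hq2 : q ((f ^ (2 * m)) x) = q x := by rw [qpow, if_pos (by omega)]
      cases hq : q x
      · rw [hq] at hq2
        have a1 := f2 _ hq2
        have a2 := f1 (f ((f ^ (2 * m)) x)) (by rw [qf, hq2]; rfl)
        rw [a2, a1, ih, if_neg (by simp [hq]), if_neg (by simp), pow_succ]
        group
      · rw [hq] at hq2
        have a1 := f1 _ hq2
        have a2 := f2 (f ((f ^ (2 * m)) x)) (by rw [qf, hq2]; rfl)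
        rw [a2, a1, ih, if_pos hq, if_pos rfl, pow_succ]
        group
  refine good_ml hs f (k := 2 * h) (by omega) (by omega) ?_ ?_ ?_ ?_
  · intro x n
    rcases Nat.even_or_odd' n with ⟨m, hm | hm⟩
    · rw [hm, fpow, ← hh]
      have h1 : 2 * orderOf (t * u) ∣ 2 * m ↔ orderOf (t * u) ∣ m :=
        Nat.mul_dvd_mul_iff_left (by norm_num)
      rw [h1, orderOf_dvd_iff_pow_eq_one]
      split_ifs
      · rw [mul_eq_left, ← hinv, inv_pow, inv_eq_one]
      · rw [mul_eq_left]
    · constructor
      · intro he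
        have h1 := qpow n x
        rw [he, if_neg (by omega)] at h1
        cases hq : q x <;> rw [hq] at h1 <;> exact absurd h1 (by decide)
      · rintro ⟨c, hc⟩
        exfalso
        have : n = 2 * (2 * h * c) := by rw [hc]; ring
        omega
  · intro x
    rw [fpow]
    split_ifs
    · rw [← hinv, inv_pow, ← hsh, hsi]
    · rw [← hsh]
  · rintro g (rfl | rfl | rfl)
    · left; exact hsi
    · right; left; exact hti
    · right; right; exact hui
  · intro x g
    cases hq : q x
    · rw [f2 x hq, g2 x hq]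
      simp only [Set.mem_insert_iff, Set.mem_singleton_iff, mul_right_inj]
      tauto
    · rw [f1 x hq, g1 x hq]
      simp only [Set.mem_insert_iff, Set.mem_singleton_iff, mul_right_inj]
      tauto

/-- three involutions, `s` commutes with `t u`, which has odd order -/
lemma good_odd [Finite Γ] {s t u : Γ} (hs : s * s = 1) (ht : t * t = 1) (hu : u * u = 1)
    (hs1 : s ≠ 1) (ht1 : t ≠ 1) (hst : s ≠ t) (htu : t ≠ u) (hsu : s ≠ u)
    (h : s ∈ zpowers (s * (t * u))) (hr : s ∉ zpowers (t * u)) :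
    Good ({s, t, u} : Set Γ) := by
  classical
  have hsi := inv_of_sq hs
  have hti := inv_of_sq ht
  have hui := inv_of_sq hu
  have hc := comm_of_mem hs h
  set r := t * u with hrdef
  set w := s * t with hw
  -- the order of `r` is odd
  have hodd : ∃ n : ℤ, r ^ (2 * n + 1) = 1 := by
    obtain ⟨n, hn⟩ := mem_zpowers_iff.mp h
    rw [Commute.mul_zpow hc] at hn
    rcases Int.even_or_odd' n with ⟨m, hm | hm⟩
    · exfalso
      apply hr
      rw [hm, zpow_mul s, zpow_two, hs, one_zpow, one_mul] at hn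
      rw [← hn]
      exact zpow_mem (mem_zpowers _) _
    · refine ⟨m, ?_⟩
      rw [hm, zpow_add s, zpow_mul s, zpow_two, hs, one_zpow, one_mul, zpow_one] at hn
      exact mul_eq_left.mp hn
  have hrt : t * r * t = r⁻¹ := by
    rw [hrdef, mul_inv_rev, hti, hui]
    calc t * (t * u) * t = (t * t) * u * t := by group
      _ = u * t := by rw [ht, one_mul]
  have hrs : s * r * s = r := by rw [hc, mul_assoc, hs, mul_one]
  have hwi : w⁻¹ = t * s := by rw [hw, mul_inv_rev, hsi, hti]
  have hwr : w * r * w⁻¹ = r⁻¹ := by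
    rw [hwi, hw]
    calc s * t * r * (t * s) = s * (t * r * t) * s := by group
      _ = (s * r * s)⁻¹ := by
          rw [hrt]
          nth_rewrite 1 [← hsi]
          nth_rewrite 2 [← hsi]
          group
      _ = r⁻¹ := by rw [hrs]
  have hws : ∀ j : ℤ, s * w ^ j * s = w ^ (-j) := by
    intro j
    have h2 : s * w ^ j * s⁻¹ = (s * w * s⁻¹) ^ j := conj_zpow.symm
    rw [hsi] at h2
    rw [h2, zpow_neg, ← inv_zpow, hwi]
    congr 1
    rw [hw]
    calc s * (s * t) * s = (s * s) * t * s := by group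
      _ = t * s := by rw [hs, one_mul]
  have hwmem : ∀ j : ℤ, ∀ i : ℤ, ∃ i' : ℤ, w ^ j * r ^ i = r ^ i' * w ^ j := by
    have hN : w ∈ normalizer (zpowers r : Set Γ) := by
      rw [mem_normalizer_iff]
      intro x
      constructor
      · intro hx
        obtain ⟨n, rfl⟩ := mem_zpowers_iff.mp hx
        rw [← conj_zpow, hwr]
        exact zpow_mem (inv_mem (mem_zpowers _)) _
      · intro hx
        obtain ⟨n, hn⟩ := mem_zpowers_iff.mp hx
        have : x = w⁻¹ * r ^ n * w := by rw [hn]; group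
        rw [this]
        have h2 : w⁻¹ * r * w = r⁻¹ := by
          rw [← hwr]
          have : r = w⁻¹ * (w * r * w⁻¹) * w := by group
          rw [hwr] at this
          rw [hwr, ← inv_inj, inv_inv]
          calc (w⁻¹ * r * w)⁻¹ = w⁻¹ * r⁻¹ * w := by group
            _ = r := this.symm
        have h3 : w⁻¹ * r ^ n * (w⁻¹)⁻¹ = (w⁻¹ * r * (w⁻¹)⁻¹) ^ n := conj_zpow.symm
        rw [inv_inv] at h3
        rw [h3, h2]
        exact zpow_mem (inv_mem (mem_zpowers _)) _
    intro j i
    have h1 := (mem_normalizer_iff.mp (zpow_mem hN j) (r ^ i)).mp (zpow_mem (mem_zpowers _) _)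
    obtain ⟨i', hi'⟩ := mem_zpowers_iff.mp h1
    exact ⟨i', by rw [hi']; group⟩
  -- the even subgroup
  let E : Subgroup Γ :=
    { carrier := {x | ∃ i j : ℤ, x = r ^ i * w ^ j}
      mul_mem' := by
        rintro x y ⟨i, j, rfl⟩ ⟨k, l, rfl⟩
        obtain ⟨k', hk'⟩ := hwmem j k
        refine ⟨i + k', j + l, ?_⟩
        calc r ^ i * w ^ j * (r ^ k * w ^ l) = r ^ i * (w ^ j * r ^ k) * w ^ l := by group
          _ = r ^ (i + k') * w ^ (j + l) := by rw [hk']; group
      one_mem' := ⟨0, 0, by simp⟩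
      inv_mem' := by
        rintro x ⟨i, j, rfl⟩
        obtain ⟨i', hi'⟩ := hwmem (-j) (-i)
        refine ⟨i', -j, ?_⟩
        rw [← hi', mul_inv_rev, zpow_neg, zpow_neg] }
  have hrE : r ∈ E := ⟨1, 0, by simp⟩
  have hwE : w ∈ E := ⟨0, 1, by simp⟩
  have hsE : s ∉ E := by
    rintro ⟨i, j, hij⟩
    have h1 : r ^ i = s * w ^ (-j) := by rw [hij, zpow_neg]; group
    have h2 : r ^ i * r ^ i = 1 := by
      rw [h1]
      calc s * w ^ (-j) * (s * w ^ (-j)) = (s * w ^ (-j) * s) * w ^ (-j) := by group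
        _ = 1 := by rw [hws]; group
    obtain ⟨n, hn⟩ := hodd
    have h3 : r ^ i = 1 := by
      have h4 : (r ^ i) ^ (2 * n + 1) = 1 := by
        rw [← zpow_mul, mul_comm, zpow_mul, hn, one_zpow]
      rw [zpow_add, zpow_mul, zpow_two, h2, one_zpow, one_mul, zpow_one] at h4
      exact h4
    rw [h3, one_mul] at hij
    have h5 : w ^ j ∈ zpowers w := zpow_mem (mem_zpowers _) _
    rw [← hij] at h5
    exact not_mem_rot hs ht hs1 ht1 h5
  obtain ⟨q, q1, q2⟩ := exists_level E hs hsE (by
    rintro e ⟨i, j, rfl⟩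
    refine ⟨i, -j, ?_⟩
    have h1 : s * r ^ i = r ^ i * s := Commute.zpow_right hc i
    calc s * (r ^ i * w ^ j) * s = (s * r ^ i) * w ^ j * s := by group
      _ = r ^ i * (s * w ^ j * s) := by rw [h1]; group
      _ = r ^ i * w ^ (-j) := by rw [hws])
  have qt : ∀ x, q (x * t) = !q x := by
    intro x
    have : x * t = x * s * w := by
      rw [hw]
      calc x * t = x * (s * s) * t := by rw [hs, mul_one]
        _ = x * s * (s * t) := by group
    rw [this, q1 _ _ hwE, q2]
  have qu : ∀ x, q (x * u) = !q x := by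
    intro x
    have : x * u = x * t * r := by
      rw [hrdef]
      calc x * u = x * (t * t) * u := by rw [ht, mul_one]
        _ = x * t * (t * u) := by group
    rw [this, q1 _ _ hrE, qt]
  exact good_bip hs ht hu hst htu hsu q q2 qt qu

lemma good_case1 [Finite Γ] {s t u : Γ} (hs : s * s = 1) (ht : t * t = 1) (hu : u * u = 1)
    (hs1 : s ≠ 1) (ht1 : t ≠ 1) (hu1 : u ≠ 1) (hst : s ≠ t) (htu : t ≠ u) (hsu : s ≠ u)
    (h : s ∈ zpowers (s * t * u)) : Good ({s, t, u} : Set Γ) := by
  rw [mul_assoc] at h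
  by_cases hr : s ∈ zpowers (t * u)
  · exact good_dihedral hs ht hu hs1 ht1 hu1 hr
  · exact good_odd hs ht hu hs1 ht1 hst htu hsu h hr

lemma conj_mem_zp {x y : Γ} (g : Γ) (h : x ∈ zpowers y) : g * x * g⁻¹ ∈ zpowers (g * y * g⁻¹) := by
  obtain ⟨n, rfl⟩ := mem_zpowers_iff.mp h
  rw [← conj_zpow]
  exact zpow_mem (mem_zpowers _) _

/-- three involutions -/
lemma good_invs [Finite Γ] {s t u : Γ} (hs : s * s = 1) (ht : t * t = 1) (hu : u * u = 1)
    (hs1 : s ≠ 1) (ht1 : t ≠ 1) (hu1 : u ≠ 1) (hst : s ≠ t) (htu : t ≠ u) (hsu : s ≠ u) :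
    Good ({s, t, u} : Set Γ) := by
  have hsi := inv_of_sq hs
  have hti := inv_of_sq ht
  have hui := inv_of_sq hu
  by_cases h1 : s ∈ zpowers (s * t * u)
  · exact good_case1 hs ht hu hs1 ht1 hu1 hst htu hsu h1
  by_cases h2 : s * t ∈ zpowers (s * t * u)
  · have h3 : u ∈ zpowers (s * t * u) := by
      have := mul_mem (inv_mem h2) (mem_zpowers (s * t * u))
      rwa [inv_mul_cancel_left] at this
    have h4 := conj_mem_zp u h3
    have e1 : u * u * u⁻¹ = u := by group
    have e2 : u * (s * t * u) * u⁻¹ = u * s * t := by group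
    rw [e1, e2] at h4
    have h5 := good_case1 hu hs ht hu1 hs1 ht1 hsu.symm hst htu.symm h4
    have e3 : ({u, s, t} : Set Γ) = {s, t, u} := by
      ext x; simp only [Set.mem_insert_iff, Set.mem_singleton_iff]; tauto
    rwa [e3] at h5
  by_cases h3 : s * t * s ∈ zpowers (s * t * u)
  · have h4 := conj_mem_zp s⁻¹ h3
    have e1 : s⁻¹ * (s * t * s) * s⁻¹⁻¹ = t := by
      rw [inv_inv]
      calc s⁻¹ * (s * t * s) * s = t * (s * s) := by group
        _ = t := by rw [hs, mul_one]
    have e2 : s⁻¹ * (s * t * u) * s⁻¹⁻¹ = t * u * s := by group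
    rw [e1, e2] at h4
    have h5 := good_case1 ht hu hs ht1 hu1 hs1 htu hsu.symm hst.symm h4
    have e3 : ({t, u, s} : Set Γ) = {s, t, u} := by
      ext x; simp only [Set.mem_insert_iff, Set.mem_singleton_iff]; tauto
    rwa [e3] at h5
  exact good_three hs ht hu hst htu hsu h1 h2 h3

/-- **All Cayley graphs.** -/
theorem good_all [Finite Γ] : ∀ (n : ℕ) (S : Set Γ), S.ncard = n → n ≠ 1 → 1 ∉ S →
    (∀ g ∈ S, g⁻¹ ∈ S) → Good S := by
  classical
  intro n
  induction n using Nat.strong_induction_on with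
  | _ n ih =>
    intro S hn hn1 h1 hsymm
    by_cases hN : ∃ a ∈ S, a⁻¹ ≠ a
    · obtain ⟨a, haS, ha⟩ := hN
      have hsub : ({a, a⁻¹} : Set Γ) ⊆ S := by
        rintro x (rfl | rfl)
        · exact haS
        · exact hsymm _ haS
      have hcard : (S \ {a, a⁻¹}).ncard = n - 2 := by
        rw [Set.ncard_sdiff hsub, Set.ncard_pair ha.symm, hn]
      have hge : 2 ≤ n := by
        rw [← hn, ← Set.ncard_pair ha.symm]
        exact Set.ncard_le_ncard hsub
      have hsymm' : ∀ g ∈ S \ {a, a⁻¹}, g⁻¹ ∈ S \ {a, a⁻¹} := by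
        rintro g ⟨hg, hg'⟩
        refine ⟨hsymm g hg, fun h => hg' ?_⟩
        rcases h with h | h
        · right; rw [Set.mem_singleton_iff, ← h, inv_inv]
        · left; exact inv_injective h
      have hS : S = (S \ {a, a⁻¹}) ∪ {a, a⁻¹} := (Set.sdiff_union_of_subset hsub).symm
      by_cases h3 : n = 3
      · -- one involution is left
        rw [h3] at hcard
        obtain ⟨s, hs⟩ := Set.ncard_eq_one.mp (by simpa using hcard)
        have hsS : s ∈ S \ {a, a⁻¹} := by rw [hs]; rfl
        have hsi : s⁻¹ = s := by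
          have := hsymm' s hsS
          rw [hs] at this
          exact this
        have hss : s * s = 1 := by
          nth_rewrite 1 [← hsi]; exact inv_mul_cancel s
        have hs1 : s ≠ 1 := fun h => h1 (h ▸ hsS.1)
        have h4 := good_mixed hss hs1 ha
        have e : S = {s, a, a⁻¹} := by
          rw [hS, hs]
          ext x; simp only [Set.mem_union, Set.mem_insert_iff, Set.mem_singleton_iff]
        rw [e]; exact h4
      · rw [hS]
        refine Good.union (ih (n - 2) (by omega) _ hcard (by omega) (fun h => h1 h.1) hsymm')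
          (good_one ha) ?_
        intro g hg; exact hg.2
    · push Not at hN
      have hinv : ∀ g ∈ S, g * g = 1 := by
        intro g hg
        nth_rewrite 1 [← hN g hg]; exact inv_mul_cancel g
      have hne1 : ∀ g ∈ S, g ≠ 1 := fun g hg h => h1 (h ▸ hg)
      rcases Nat.eq_zero_or_pos n with h0 | h0
      · have : S = ∅ := by
          rw [h0] at hn
          exact (Set.ncard_eq_zero (Set.toFinite S)).mp hn
        rw [this]; exact Good.empty
      by_cases h3 : n = 3
      · rw [h3] at hn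
        obtain ⟨s, t, u, hst, hsu, htu, rfl⟩ := Set.ncard_eq_three.mp hn
        have a1 : s ∈ ({s, t, u} : Set Γ) := by simp
        have a2 : t ∈ ({s, t, u} : Set Γ) := by simp
        have a3 : u ∈ ({s, t, u} : Set Γ) := by simp
        exact good_invs (hinv s a1) (hinv t a2) (hinv u a3) (hne1 s a1) (hne1 t a2) (hne1 u a3)
          hst htu hsu
      -- remove two involutions
      obtain ⟨s, hs, t, ht, hst⟩ : ∃ s ∈ S, ∃ t ∈ S, s ≠ t := by
        have : 1 < S.ncard := by omega
        obtain ⟨s, hs, t, ht, hst⟩ := (Set.one_lt_ncard (Set.toFinite S)).mp this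
        exact ⟨s, hs, t, ht, hst⟩
      have hsub : ({s, t} : Set Γ) ⊆ S := by
        rintro x (rfl | rfl) <;> assumption
      have hcard : (S \ {s, t}).ncard = n - 2 := by
        rw [Set.ncard_sdiff hsub, Set.ncard_pair hst, hn]
      have hS : S = (S \ {s, t}) ∪ {s, t} := (Set.sdiff_union_of_subset hsub).symm
      rw [hS]
      refine Good.union (ih (n - 2) (by omega) _ hcard (by omega) (fun h => h1 h.1) ?_)
        (good_pair (hinv s hs) (hinv t ht) (hne1 s hs) (hne1 t ht) hst) ?_
      · intro g hg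
        rw [hN g hg.1]; exact hg
      · intro g hg; exact hg.2

end Pool.Agent.V1121.OC
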