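import Pool.Agent.TH505.OCDC.Decomp

set_option autoImplicit false

/-!
Oriented cycle double covers of Cayley graphs from colourings of the darts.
-/

namespace Pool.Agent.V1121.OC

open Finset Pool.Agent.TH505.OCDC

variable {Γ : Type} [Group Γ]

/-- A balanced colouring of the darts `(x, x g)`, `g ∈ S`, of a Cayley graph: at every vertex the
ingoing and the outgoing darts have the same colours, opposite darts have different colours. -/
structure Col (S : Set Γ) (K : Type) where
  symm : ∀ g ∈ S, g⁻¹ ∈ S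
  col : Γ → Γ → K
  next : Γ → Γ → Γ
  maps : ∀ v, ∀ g ∈ S, next v g ∈ S
  inj : ∀ v, ∀ g ∈ S, ∀ h ∈ S, next v g = next v h → g = h
  bal : ∀ v, ∀ g ∈ S, col (v * g⁻¹) g = col v (next v g)
  anti : ∀ x, ∀ g ∈ S, col x g ≠ col (x * g) g⁻¹

/-- a balanced colouring exists -/
def Good (S : Set Γ) : Prop := ∃ K : Type, Nonempty (Col S K)

open scoped Classical in
lemma Col.balance [Fintype Γ] {S : Set Γ} {K : Type} (c : Col S K) (v : Γ) (k : K) :
    ∑ w, ind (v⁻¹ * w ∈ S ∧ c.col v (v⁻¹ * w) = k) =
      ∑ w, ind (w⁻¹ * v ∈ S ∧ c.col w (w⁻¹ * v) = k) := by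
  have h1 : ∑ w, ind (v⁻¹ * w ∈ S ∧ c.col v (v⁻¹ * w) = k) = ∑ g, ind (g ∈ S ∧ c.col v g = k) := by
    apply Fintype.sum_equiv (Equiv.mulLeft v⁻¹)
    intro w; rfl
  have h2 : ∑ w, ind (w⁻¹ * v ∈ S ∧ c.col w (w⁻¹ * v) = k) =
      ∑ g, ind (g ∈ S ∧ c.col v (c.next v g) = k) := by
    apply Fintype.sum_equiv ((Equiv.inv Γ).trans (Equiv.mulRight v))
    intro w
    simp only [Equiv.trans_apply, Equiv.inv_apply, Equiv.coe_mulRight]
    by_cases hw : w⁻¹ * v ∈ S
    · have h := c.bal v _ hw
      rw [← h]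
      have e : v * (w⁻¹ * v)⁻¹ = w := by group
      rw [e]
    · rw [ind_neg (fun h => hw h.1), ind_neg (fun h => hw h.1)]
  have key : ∀ P : Γ → Prop, ∑ g, ind (g ∈ S ∧ P g) = ∑ g ∈ S.toFinset, ind (P g) := by
    intro P
    have h3 : ∀ g, ind (g ∈ S ∧ P g) = if g ∈ S.toFinset then ind (P g) else 0 := by
      intro g
      by_cases hg : g ∈ S
      · rw [if_pos (Set.mem_toFinset.mpr hg)]
        by_cases hP : P g
        · rw [ind_pos hP, ind_pos ⟨hg, hP⟩]
        · rw [ind_neg hP, ind_neg (fun h => hP h.2)]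
      · rw [if_neg (fun h => hg (Set.mem_toFinset.mp h)), ind_neg (fun h => hg h.1)]
    rw [Finset.sum_congr rfl (fun g _ => h3 g), Finset.sum_ite_mem, Finset.univ_inter]
  rw [h1, h2, key, key]
  have himg : S.toFinset.image (c.next v) = S.toFinset := by
    apply Finset.eq_of_subset_of_card_le
    · intro g hg
      obtain ⟨h, hh, rfl⟩ := Finset.mem_image.mp hg
      exact Set.mem_toFinset.mpr (c.maps v h (Set.mem_toFinset.mp hh))
    · rw [Finset.card_image_of_injOn]
      intro g hg h hh e
      exact c.inj v g (Set.mem_toFinset.mp hg) h (Set.mem_toFinset.mp hh) e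
  conv_lhs => rw [← himg]
  rw [Finset.sum_image]
  intro g hg h hh e
  exact c.inj v g (Set.mem_toFinset.mp hg) h (Set.mem_toFinset.mp hh) e

/-- the criterion -/
theorem Good.cover [Fintype Γ] {S : Set Γ} (hS : Good S) (G : SimpleGraph Γ)
    (hadj : ∀ x y, G.Adj x y ↔ x⁻¹ * y ∈ S) :
    ∃ C : List (Σ v : Γ, G.Walk v v), (∀ c ∈ C, c.2.IsCycle) ∧
      ∀ u v, G.Adj u v → tot C u v = 1 := by
  classical
  obtain ⟨K, ⟨c⟩⟩ := hS
  have main : ∀ T : Finset K, ∃ C : List (Σ v : Γ, G.Walk v v), (∀ c ∈ C, c.2.IsCycle) ∧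
      ∀ u v, tot C u v = ind (G.Adj u v ∧ c.col u (u⁻¹ * v) ∈ T) := by
    intro T
    induction T using Finset.induction_on with
    | empty =>
      refine ⟨[], by simp, fun u v => ?_⟩
      rw [tot_nil, ind_neg (fun h => by simpa using h.2)]
    | insert k T hk ih =>
      obtain ⟨C, hC, hC2⟩ := ih
      obtain ⟨D, hD, hD2⟩ := directed_decomp (G := G) _
        (fun u v => G.Adj u v ∧ c.col u (u⁻¹ * v) = k) rfl (fun u v h => h.1) (by
          rintro u v ⟨h1, h2⟩ ⟨h3, h4⟩
          rw [hadj] at h1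
          have := c.anti u _ h1
          have e1 : u * (u⁻¹ * v) = v := by group
          have e2 : (u⁻¹ * v)⁻¹ = v⁻¹ * u := by group
          rw [e1, e2, h2, h4] at this
          exact this rfl) (by
          intro v
          have := c.balance v k
          simpa only [hadj] using this)
      refine ⟨D ++ C, ?_, ?_⟩
      · intro c hc
        rcases List.mem_append.mp hc with hc | hc
        · exact hD c hc
        · exact hC c hc
      · intro u v
        rw [tot_append, hC2, hD2]
        by_cases ha : G.Adj u v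
        · by_cases hk1 : c.col u (u⁻¹ * v) = k
          · rw [ind_pos ⟨ha, hk1⟩, ind_neg, ind_pos]
            · exact ⟨ha, by rw [hk1]; exact Finset.mem_insert_self _ _⟩
            · rintro ⟨-, h⟩
              rw [hk1] at h; exact hk h
          · rw [ind_neg (fun h => hk1 h.2), zero_add]
            by_cases hT : c.col u (u⁻¹ * v) ∈ T
            · rw [ind_pos ⟨ha, hT⟩, ind_pos ⟨ha, Finset.mem_insert_of_mem hT⟩]
            · rw [ind_neg (fun h => hT h.2), ind_neg]
              rintro ⟨-, h⟩
              rcases Finset.mem_insert.mp h with h | h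
              · exact hk1 h
              · exact hT h
        · rw [ind_neg (fun h => ha h.1), ind_neg (fun h => ha h.1), ind_neg (fun h => ha h.1)]
  obtain ⟨C, hC, hC2⟩ := main ((univ : Finset (Γ × Γ)).image (fun p => c.col p.1 (p.1⁻¹ * p.2)))
  refine ⟨C, hC, fun u v huv => ?_⟩
  rw [hC2, ind_pos]
  exact ⟨huv, Finset.mem_image.mpr ⟨(u, v), mem_univ _, rfl⟩⟩

/-- the empty set -/
lemma Good.empty : Good (∅ : Set Γ) :=
  ⟨Unit, ⟨{ symm := by simp, col := fun _ _ => (), next := fun _ g => g, maps := by simp,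
            inj := by simp, bal := by simp, anti := by simp }⟩⟩

open scoped Classical in
/-- disjoint unions -/
lemma Good.union {S T : Set Γ} (hS : Good S) (hT : Good T) (hd : ∀ g ∈ S, g ∉ T) : Good (S ∪ T) := by
  obtain ⟨K, ⟨c⟩⟩ := hS
  obtain ⟨L, ⟨d⟩⟩ := hT
  have hd' : ∀ g ∈ T, g ∉ S := fun g hg hg' => hd g hg' hg
  refine ⟨K ⊕ L, ⟨{ symm := ?_
                    col := fun x g => if g ∈ S then Sum.inl (c.col x g) else Sum.inr (d.col x g)
                    next := fun v g => if g ∈ S then c.next v g else d.next v g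
                    maps := ?_
                    inj := ?_
                    bal := ?_
                    anti := ?_ }⟩⟩
  · rintro g (hg | hg)
    · exact Or.inl (c.symm g hg)
    · exact Or.inr (d.symm g hg)
  · rintro v g (hg | hg)
    · rw [if_pos hg]; exact Or.inl (c.maps v g hg)
    · rw [if_neg (hd' g hg)]; exact Or.inr (d.maps v g hg)
  · rintro v g (hg | hg) h (hh | hh) e
    · rw [if_pos hg, if_pos hh] at e; exact c.inj v g hg h hh e
    · rw [if_pos hg, if_neg (hd' h hh)] at e
      exact absurd (d.maps v h hh) (by rw [← e]; exact hd _ (c.maps v g hg))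
    · rw [if_neg (hd' g hg), if_pos hh] at e
      exact absurd (d.maps v g hg) (by rw [e]; exact hd _ (c.maps v h hh))
    · rw [if_neg (hd' g hg), if_neg (hd' h hh)] at e; exact d.inj v g hg h hh e
  · rintro v g (hg | hg)
    · simp only [if_pos hg, if_pos (c.maps v g hg), c.bal v g hg]
    · simp only [if_neg (hd' g hg), if_neg (hd' _ (d.maps v g hg)), d.bal v g hg]
  · rintro x g (hg | hg)
    · simp only [if_pos hg, if_pos (c.symm g hg)]
      intro h; exact c.anti x g hg (Sum.inl_injective h)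
    · simp only [if_neg (hd' g hg), if_neg (hd' _ (d.symm g hg))]
      intro h; exact d.anti x g hg (Sum.inr_injective h)

end Pool.Agent.V1121.OC
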