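import Pool.Agent.V1121.OC.Piece

set_option autoImplicit false
set_option linter.unusedSimpArgs false
set_option linter.unusedVariables false

/-!
Moebius ladders.
-/

namespace Pool.Agent.V1121.OC

open Finset Pool.Agent.TH505.OCDC Subgroup

lemma perm_ai {X : Type} (f : Equiv.Perm X) (x : X) : f (f⁻¹ x) = x := f.apply_symm_apply x
lemma perm_ia {X : Type} (f : Equiv.Perm X) (x : X) : f⁻¹ (f x) = x := f.symm_apply_apply x

/-- an index along the orbits of a permutation all orbits of which have `N` elements -/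
lemma exists_index {X : Type} (f : Equiv.Perm X) {N : ℕ} (hN : 0 < N)
    (hf : ∀ x, ∀ n : ℕ, (f ^ n) x = x ↔ N ∣ n) :
    ∃ i : X → ℕ, (∀ x, i x < N) ∧ ∀ x, i (f x) = (i x + 1) % N := by
  classical
  let S : Setoid X := Equiv.Perm.SameCycle.setoid f
  let rep : X → X := fun x => (Quotient.mk S x).out
  have hrep : ∀ x, rep (f x) = rep x := by
    intro x
    show (Quotient.mk S (f x)).out = (Quotient.mk S x).out
    congr 1
    apply Quotient.sound
    exact ⟨-1, by simp⟩
  have hex : ∀ x, ∃ n : ℕ, n < N ∧ (f ^ n) (rep x) = x := by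
    intro x
    have h1 : S (rep x) x := Quotient.exact (Quotient.out_eq (Quotient.mk S x))
    obtain ⟨k, hk⟩ := h1
    have hfN : (f ^ N) = 1 := by
      ext y
      exact (hf y N).mpr dvd_rfl
    refine ⟨(k % N).toNat, ?_, ?_⟩
    · have := Int.emod_lt_of_pos k (show (0 : ℤ) < N by exact_mod_cast hN)
      have := Int.emod_nonneg k (show (N : ℤ) ≠ 0 by exact_mod_cast hN.ne')
      omega
    · have h0 := Int.emod_nonneg k (show (N : ℤ) ≠ 0 by exact_mod_cast hN.ne')
      have h2 : f ^ (k % N).toNat = f ^ k := by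
        rw [← zpow_natCast, Int.toNat_of_nonneg h0]
        conv_rhs => rw [← Int.emod_add_mul_ediv k N, zpow_add, zpow_mul, zpow_natCast, hfN, one_zpow,
          mul_one]
      rw [h2]; exact hk
  choose i hi1 hi2 using hex
  refine ⟨i, hi1, fun x => ?_⟩
  have h3 : (f ^ (i x + 1)) (rep x) = f x := by
    rw [pow_succ', Equiv.Perm.mul_apply, hi2]
  have h4 : (f ^ i (f x)) (rep x) = (f ^ (i x + 1)) (rep x) := by
    rw [h3, ← hrep x]; exact hi2 (f x)
  -- `f ^ i (f x) = f ^ (i x + 1)` on `rep x`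
  have key : ∀ m n : ℕ, m ≤ n → (f ^ m) (rep x) = (f ^ n) (rep x) → N ∣ n - m := by
    intro m n hmn he
    rw [← hf (rep x)]
    apply (f ^ m).injective
    rw [← Equiv.Perm.mul_apply, ← pow_add, Nat.add_sub_cancel' hmn, he]
  have hlt := hi1 (f x)
  have hlt' := hi1 x
  by_cases hc : i x + 1 < N
  · rw [Nat.mod_eq_of_lt hc]
    rcases le_total (i (f x)) (i x + 1) with h | h
    · have h5 := key _ _ h h4
      have h6 := Nat.eq_zero_of_dvd_of_lt h5 (by omega)
      omega
    · have h5 := key _ _ h h4.symm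
      have h6 := Nat.eq_zero_of_dvd_of_lt h5 (by omega)
      omega
  · have hN' : i x + 1 = N := by omega
    rw [hN', Nat.mod_self]
    rw [hN'] at h4
    have h5 := key _ _ (by omega) h4
    have h6 : N ∣ i (f x) := by
      have := Nat.dvd_sub (dvd_refl N) h5
      rwa [Nat.sub_sub_self hlt.le] at this
    exact Nat.eq_zero_of_dvd_of_lt h6 hlt

/-- colours of the forward rim darts -/
def cF (k i : ℕ) : ℕ :=
  if i + 1 = k then 0 else if i + 1 = 2 * k then 1 else if i < k then i % 2 else 1 - i % 2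
/-- colours of the backward rim darts -/
def cB (k i : ℕ) : ℕ := if i < k then 2 else 3
/-- colours of the rung darts -/
def cR (k i : ℕ) : ℕ :=
  if i + 1 = k then 3 else if i + 1 = 2 * k then 2 else if i < k then 1 - i % 2 else i % 2

/-- the two exceptional places -/
def Ex (k i : ℕ) : Prop := i + 1 = k ∨ i + 1 = 2 * k

section
variable {k i j : ℕ}

/-- `j` is the predecessor of `i` modulo `2 k` -/
def Pr (k i j : ℕ) : Prop := (0 < i ∧ j = i - 1) ∨ (i = 0 ∧ j = 2 * k - 1)
/-- `j` is the successor of `i` modulo `2 k` -/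
def Su (k i j : ℕ) : Prop := (i + 1 < 2 * k ∧ j = i + 1) ∨ (i + 1 = 2 * k ∧ j = 0)
/-- `j` is opposite to `i` modulo `2 k` -/
def Op (k i j : ℕ) : Prop := (i < k ∧ j = i + k) ∨ (k ≤ i ∧ j = i - k)

lemma norm_F (hk : 2 ≤ k) (he : k % 2 = 0) (hi : i < 2 * k) (h : Pr k i j) (hx : ¬ Ex k i) :
    cF k j = cR k i := by
  unfold Pr Ex at *; unfold cF cR; split_ifs <;> omega
lemma norm_R (hk : 2 ≤ k) (he : k % 2 = 0) (hi : i < 2 * k) (h : Op k i j) (hx : ¬ Ex k i) :
    cR k j = cF k i := by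
  unfold Op Ex at *; unfold cF cR; split_ifs <;> omega
lemma norm_B (hk : 2 ≤ k) (he : k % 2 = 0) (hi : i < 2 * k) (h : Su k i j) (hx : ¬ Ex k i) :
    cB k j = cB k i := by
  unfold Su Ex at *; unfold cB; split_ifs <;> omega
lemma exc_F (hk : 2 ≤ k) (he : k % 2 = 0) (hi : i < 2 * k) (h : Pr k i j) (hx : Ex k i) :
    cF k j = cF k i := by
  unfold Pr Ex at *; unfold cF; split_ifs <;> omega
lemma exc_R (hk : 2 ≤ k) (he : k % 2 = 0) (hi : i < 2 * k) (h : Op k i j) (hx : Ex k i) :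
    cR k j = cB k i := by
  unfold Op Ex at *; unfold cR cB; split_ifs <;> omega
lemma exc_B (hk : 2 ≤ k) (he : k % 2 = 0) (hi : i < 2 * k) (h : Su k i j) (hx : Ex k i) :
    cB k j = cR k i := by
  unfold Su Ex at *; unfold cR cB; split_ifs <;> omega
lemma FB_ne (hk : 2 ≤ k) (hi : i < 2 * k) : cF k i ≠ cB k j := by
  unfold cF cB; split_ifs <;> omega
lemma RR_ne (hk : 2 ≤ k) (he : k % 2 = 0) (hi : i < 2 * k) (h : Op k i j) : cR k i ≠ cR k j := by
  unfold Op at *; unfold cR; split_ifs <;> omega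

end

variable {Γ : Type} [Group Γ]

/-- Moebius ladders with an even number of rungs. -/
lemma good_ml {s : Γ} {S : Set Γ} (hs : s * s = 1) (f : Equiv.Perm Γ) {k : ℕ} (hk : 2 ≤ k)
    (he : k % 2 = 0) (hf : ∀ x, ∀ n : ℕ, (f ^ n) x = x ↔ 2 * k ∣ n) (hfk : ∀ x, (f ^ k) x = x * s)
    (hsymm : ∀ g ∈ S, g⁻¹ ∈ S)
    (hS : ∀ x g, g ∈ S ↔ x * g = f x ∨ x * g = f⁻¹ x ∨ g = s) : Good S := by
  classical
  have hsi := inv_of_sq hs
  obtain ⟨i, hi1, hi2⟩ := exists_index f (show 0 < 2 * k by omega) hf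
  have hSu : ∀ x, Su k (i x) (i (f x)) := by
    intro x
    have h1 := hi1 x
    have h2 := hi2 x
    by_cases hc : i x + 1 < 2 * k
    · rw [Nat.mod_eq_of_lt hc] at h2
      exact Or.inl ⟨hc, h2⟩
    · have : i x + 1 = 2 * k := by omega
      rw [this, Nat.mod_self] at h2
      exact Or.inr ⟨this, h2⟩
  have hPr : ∀ x, Pr k (i x) (i (f⁻¹ x)) := by
    intro x
    have h := hSu (f⁻¹ x)
    rw [perm_ai] at h
    unfold Su at h; unfold Pr
    omega
  have hpow : ∀ n x, i ((f ^ n) x) = (i x + n) % (2 * k) := by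
    intro n
    induction n with
    | zero => intro x; simp [Nat.mod_eq_of_lt (hi1 x)]
    | succ n ih =>
      intro x
      rw [pow_succ', Equiv.Perm.mul_apply, hi2, ih, Nat.mod_add_mod, add_assoc]
  have hOp : ∀ x, Op k (i x) (i (x * s)) := by
    intro x
    have h1 := hi1 x
    have h2 := hpow k x
    rw [hfk] at h2
    by_cases hc : i x < k
    · rw [Nat.mod_eq_of_lt (by omega)] at h2
      exact Or.inl ⟨hc, h2⟩
    · have h3 : i x + k = (i x - k) + 2 * k := by omega
      rw [h3, Nat.add_mod_right, Nat.mod_eq_of_lt (by omega)] at h2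
      exact Or.inr ⟨by omega, h2⟩
  have d1 : ∀ x, f x ≠ f⁻¹ x := by
    intro x h
    have a := hSu x; have b := hPr x; have c := hi1 x
    rw [h] at a
    unfold Su Pr at *; omega
  have d2 : ∀ x, x * s ≠ f x := by
    intro x h
    have a := hSu x; have b := hOp x; have c := hi1 x
    rw [h] at b
    unfold Su Op at *; omega
  have d3 : ∀ x, x * s ≠ f⁻¹ x := by
    intro x h
    have a := hPr x; have b := hOp x; have c := hi1 x
    rw [h] at b
    unfold Pr Op at *; omega
  have e1 : ∀ v : Γ, v * (v⁻¹ * f v) = f v := fun v => by group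
  have e2 : ∀ v : Γ, v * (v⁻¹ * f⁻¹ v) = f⁻¹ v := fun v => by group
  have n1 : ∀ v : Γ, v⁻¹ * f v ≠ s := fun v h => d2 v (by rw [← h, e1])
  have n2 : ∀ v : Γ, v⁻¹ * f⁻¹ v ≠ s := fun v h => d3 v (by rw [← h, e2])
  have n3 : ∀ v : Γ, v⁻¹ * f v ≠ v⁻¹ * f⁻¹ v := fun v h => d1 v (mul_left_cancel h)
  -- the type of an ingoing dart
  have hin : ∀ v g, g ∈ S → v * g⁻¹ = f⁻¹ v ∨ (v * g⁻¹ = f v ∧ g ≠ s ∧ f v ≠ f⁻¹ v) ∨
      (g = s ∧ v * g⁻¹ = v * s ∧ v * s ≠ f⁻¹ v) := by
    intro v g hg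
    rcases (hS (v * g⁻¹) g).mp hg with h | h | h
    · left
      rw [inv_mul_cancel_right] at h
      rw [h, perm_ia, ← h]
    · right; left
      rw [inv_mul_cancel_right] at h
      have h2 : v * g⁻¹ = f v := by rw [h, perm_ai, ← h]
      refine ⟨h2, ?_, d1 v⟩
      rintro rfl
      rw [hsi] at h2
      exact d2 v h2
    · right; right
      subst h
      exact ⟨rfl, by rw [hsi], d3 v⟩
  let col : Γ → Γ → ℕ := fun x g =>
    if x * g = f x then cF k (i x) else if g = s then cR k (i x) else cB k (i x)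
  have c1 : ∀ v, col v (v⁻¹ * f v) = cF k (i v) := fun v => by simp only [col, e1, if_true]
  have c2 : ∀ v, col v (v⁻¹ * f⁻¹ v) = cB k (i v) := fun v => by
    simp only [col, e2, if_neg (d1 v).symm, if_neg (n2 v)]
  have c3 : ∀ v, col v s = cR k (i v) := fun v => by
    simp only [col, if_neg (d2 v), if_true]
  let nx : Γ → Γ → Γ := fun v g =>
    if v * g⁻¹ = f⁻¹ v then (if Ex k (i v) then v⁻¹ * f v else s)
    else if g = s then (if Ex k (i v) then v⁻¹ * f⁻¹ v else v⁻¹ * f v)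
    else (if Ex k (i v) then s else v⁻¹ * f⁻¹ v)
  have x1 : ∀ v g, v * g⁻¹ = f⁻¹ v → nx v g = if Ex k (i v) then v⁻¹ * f v else s := by
    intro v g h; simp only [nx, if_pos h]
  have x2 : ∀ v, nx v s = if Ex k (i v) then v⁻¹ * f⁻¹ v else v⁻¹ * f v := by
    intro v
    have : ¬ v * s⁻¹ = f⁻¹ v := by rw [hsi]; exact d3 v
    simp only [nx, if_neg this, if_true]
  have x3 : ∀ v g, v * g⁻¹ = f v → g ≠ s → nx v g = if Ex k (i v) then s else v⁻¹ * f⁻¹ v := by
    intro v g h hg
    have : ¬ v * g⁻¹ = f⁻¹ v := by rw [h]; exact d1 v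
    simp only [nx, if_neg this, if_neg hg]
  refine ⟨ℕ, ⟨⟨hsymm, col, nx, ?_, ?_, ?_, ?_⟩⟩⟩
  · intro v g hg
    have m1 : v⁻¹ * f v ∈ S := (hS v _).mpr (Or.inl (e1 v))
    have m2 : v⁻¹ * f⁻¹ v ∈ S := (hS v _).mpr (Or.inr (Or.inl (e2 v)))
    have m3 : s ∈ S := (hS v _).mpr (Or.inr (Or.inr rfl))
    rcases hin v g hg with h | ⟨h, h', -⟩ | ⟨h, -, -⟩
    · rw [x1 v g h]; split_ifs <;> assumption
    · rw [x3 v g h h']; split_ifs <;> assumption
    · rw [h, x2 v]; split_ifs <;> assumption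
  · intro v g hg h hh e
    have a1 := n1 v; have a2 := n2 v; have a3 := n3 v
    have b1 := a1.symm; have b2 := a2.symm; have b3 := a3.symm
    rcases hin v g hg with h1 | ⟨h1, h1', -⟩ | ⟨h1, -, -⟩ <;>
      rcases hin v h hh with h2 | ⟨h2, h2', -⟩ | ⟨h2, -, -⟩
    · rw [← h2] at h1; exact inv_injective (mul_left_cancel h1)
    · rw [x1 v g h1, x3 v h h2 h2'] at e
      split_ifs at e <;> contradiction
    · rw [x1 v g h1, h2, x2 v] at e
      split_ifs at e <;> contradiction
    · rw [x3 v g h1 h1', x1 v h h2] at e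
      split_ifs at e <;> contradiction
    · rw [← h2] at h1; exact inv_injective (mul_left_cancel h1)
    · rw [x3 v g h1 h1', h2, x2 v] at e
      split_ifs at e <;> contradiction
    · rw [h1, x2 v, x1 v h h2] at e
      split_ifs at e <;> contradiction
    · rw [h1, x2 v, x3 v h h2 h2'] at e
      split_ifs at e <;> contradiction
    · rw [h1, h2]
  · intro v g hg
    rcases hin v g hg with h1 | ⟨h1, h1', -⟩ | ⟨h1, h1', -⟩
    · have hc : col (v * g⁻¹) g = cF k (i (f⁻¹ v)) := by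
        have : v * g⁻¹ * g = f (v * g⁻¹) := by
          rw [h1, perm_ai, ← h1, inv_mul_cancel_right]
        simp only [col, if_pos this]
        rw [h1]
      rw [hc, x1 v g h1]
      split_ifs with hx
      · rw [c1]; exact exc_F hk he (hi1 v) (hPr v) hx
      · rw [c3]; exact norm_F hk he (hi1 v) (hPr v) hx
    · have hc : col (v * g⁻¹) g = cB k (i (f v)) := by
        have : ¬ v * g⁻¹ * g = f (v * g⁻¹) := by
          rw [inv_mul_cancel_right, h1]
          intro h
          apply d1 (f v)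
          rw [← h, perm_ia]
        simp only [col, if_neg this, if_neg h1']
        rw [h1]
      rw [hc, x3 v g h1 h1']
      split_ifs with hx
      · rw [c3]; exact exc_B hk he (hi1 v) (hSu v) hx
      · rw [c2]; exact norm_B hk he (hi1 v) (hSu v) hx
    · subst h1
      rw [h1', c3, x2 v]
      split_ifs with hx
      · rw [c2]; exact exc_R hk he (hi1 v) (hOp v) hx
      · rw [c1]; exact norm_R hk he (hi1 v) (hOp v) hx
  · intro x g hg
    rcases (hS x g).mp hg with h | h | h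
    · have hg' : g = x⁻¹ * f x := by rw [← h]; group
      have h2 : col (x * g) g⁻¹ = cB k (i (f x)) := by
        have h3 : g⁻¹ = (f x)⁻¹ * f⁻¹ (f x) := by
          rw [perm_ia, ← h]; group
        rw [h, h3, c2]
      rw [h2, hg', c1]
      exact FB_ne hk (hi1 x)
    · have hg' : g = x⁻¹ * f⁻¹ x := by rw [← h]; group
      have h2 : col (x * g) g⁻¹ = cF k (i (f⁻¹ x)) := by
        have h3 : g⁻¹ = (f⁻¹ x)⁻¹ * f (f⁻¹ x) := by
          rw [perm_ai, ← h]; group
        rw [h, h3, c1]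
      rw [h2, hg', c2]
      exact (FB_ne hk (hi1 _)).symm
    · subst h
      rw [hsi, c3, c3]
      exact RR_ne hk he (hi1 x) (hOp x)

end Pool.Agent.V1121.OC
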